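import Pool.Agent.T2H83.Dom.Main
import Pool.Agent.R890.FF.BF
import Pool.Agent.TH497.BF.Six

set_option autoImplicit false

/-!
# Six even subgraphs with every edge in exactly four of them: domination number at most three

Let `G` be a finite graph without a cut edge, loops and parallel edges allowed, with three vertices
such that every other vertex which is an end of an edge is joined to one of them by an edge; more
generally, let this be so for every graph without circuits with two, three or four edges and
without vertices of degree two which arises from `G` by the identification of vertices (for example,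
for the graph which one gets by contracting circuits with at most four edges as long as there are
such circuits).  Then `G` has six even subgraphs such that every edge is in exactly four of them.
The order, the degrees, the width and the connectivity of `G` are arbitrary.

Proof.  The class is closed under the identification of vertices.  Let `H` arise from `G` by
identification of vertices and have no nowhere-zero flow over the group `F` of order four and no
Petersen quotient, with as few edges as possible.  It has no circuit with at most four edges, its
vertices which are not isolated have degree at least three, and at least 18 of them are odd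
(starting theorems, `R890/FF`).  Three vertices dominate `H`.  The vertices which are not isolated
are then the three hubs, at most one vertex `z` joined to the three hubs, and vertices of degree
three which form cycles whose lengths are multiples of three; on a cycle the hubs to which its
vertices are joined alternate cyclically (`T2H83/Dom/Str.lean`).  One chooses nonzero elements of
`F` on the edges of the cycles, different ones on consecutive edges, such that the sums over the
edges which begin at a vertex with hub `i` are equal for the three hubs if there is no `z`, and
different if there is a `z`: a single cycle with at least nine edges, or two cycles, suffice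
(`T2H83/Dom/Pat.lean`, `Cyc.lean`); the only exception would be a single cycle with six edges and
`z`, the Petersen graph.  The values on the other edges are then determined and not zero
(`T2H83/Dom/Main.lean`), a contradiction.  So all quotients of `G` have a nowhere-zero flow over `F`
or a Petersen quotient, and in the second case one glues at the ten 3-cuts of the quotient
(`R890/FF/Alg.lean`).
-/

namespace Pool.Agent.Results.MP_40718a_co.DominationThree

open Finset

/-- the simple graph in which two distinct vertices are adjacent if an edge in `F` joins them -/
def under {V E : Type} (src dst : E → V) (F : Set E) : SimpleGraph V where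
  Adj x y := x ≠ y ∧ ∃ e ∈ F, (src e = x ∧ dst e = y) ∨ (src e = y ∧ dst e = x)
  symm := ⟨fun _ _ h => ⟨h.1.symm, h.2.imp fun _ he => ⟨he.1, he.2.symm⟩⟩⟩
  loopless := ⟨fun _ h => h.1 rfl⟩

/-- the edge `e` is a cut edge: its ends are not connected by the other edges -/
def IsCutEdge {V E : Type} (src dst : E → V) (e : E) : Prop :=
  ¬ (under src dst {e' | e' ≠ e}).Reachable (src e) (dst e)

/-- the degree of `v` in the set of edges `F`, where a loop counts twice -/
def deg {V E : Type} [DecidableEq V] (src dst : E → V) (F : Finset E) (v : V) : ℕ :=
  ∑ e ∈ F, ((if src e = v then 1 else 0) + (if dst e = v then 1 else 0))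

/-- six even subgraphs such that every edge is in exactly four of them -/
def SixEvenSubgraphs {V E : Type} [DecidableEq V] [Fintype E] [DecidableEq E]
    (src dst : E → V) : Prop :=
  ∃ C : Fin 6 → Finset E, (∀ i v, Even (deg src dst (C i) v)) ∧
    ∀ e, (univ.filter fun i => e ∈ C i).card = 4

/-- For an equivalence relation `r` on the vertices, the quotient by `r` is the graph whose vertices
are the classes of `r` (the vertices in a class are identified).  The edge `e` joins the classes of
`x` and `y` in the quotient by `r`. -/
def JoinsUpTo {V E : Type} (src dst : E → V) (r : V → V → Prop) (x y : V) (e : E) : Prop :=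
  (r (src e) x ∧ r (dst e) y) ∨ (r (src e) y ∧ r (dst e) x)

/-- The quotient by `r` is reduced: it has no circuit with two, three or four edges, and no vertex
of degree two (loops are not counted). -/
structure Reduced {V E : Type} (src dst : E → V) (r : V → V → Prop) : Prop where
  /-- no circuit with two edges -/
  two : ∀ x y e e', ¬ r x y → e ≠ e' → JoinsUpTo src dst r x y e → ¬ JoinsUpTo src dst r x y e'
  /-- no circuit with three edges -/
  three : ∀ x y z e₁ e₂ e₃, ¬ r x y → ¬ r y z → ¬ r z x → JoinsUpTo src dst r x y e₁ →
    JoinsUpTo src dst r y z e₂ → ¬ JoinsUpTo src dst r z x e₃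
  /-- no circuit with four edges -/
  four : ∀ x y z w e₁ e₂ e₃ e₄, ¬ r x y → ¬ r y z → ¬ r z w → ¬ r w x → ¬ r x z → ¬ r y w →
    JoinsUpTo src dst r x y e₁ → JoinsUpTo src dst r y z e₂ → JoinsUpTo src dst r z w e₃ →
    ¬ JoinsUpTo src dst r w x e₄
  /-- no vertex of degree two -/
  deg : ∀ x, {e | ¬ (r (src e) x ↔ r (dst e) x)}.ncard ≠ 2

/-- Three vertices dominate the quotient by `r`: for each vertex `x` of `G` which is an end of an
edge, the class of `x` is the class of one of them or is joined to it by an edge. -/
def Dominated {V E : Type} (src dst : E → V) (r : V → V → Prop) : Prop :=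
  ∃ d : Fin 3 → V, ∀ x, (∃ e, src e = x ∨ dst e = x) →
    ∃ i, r x (d i) ∨ ∃ e, JoinsUpTo src dst r x (d i) e

/-- **Theorem.** Let `G` be a finite graph without a cut edge, loops and parallel edges allowed.
(1) If each reduced quotient of `G` is dominated by three vertices then `G` has six even subgraphs
such that every edge is in exactly four of them.
(2) In particular this holds if three vertices dominate `G` (every other vertex which is an end of
an edge is joined to one of them by an edge). -/
theorem result (V E : Type) [Fintype V] [DecidableEq V] [Fintype E] [DecidableEq E]
    (src dst : E → V) (hI : ∀ e, ¬ IsCutEdge src dst e) :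
    ((∀ r : V → V → Prop, Equivalence r → Reduced src dst r → Dominated src dst r) →
      SixEvenSubgraphs src dst) ∧
    (Dominated src dst (fun x y => x = y) → SixEvenSubgraphs src dst) := by
  classical
  -- no cut with one edge
  have hcut : Pool.Agent.TH676.A.Br src dst ∅ ∅ := by
    intro Y _ hY
    rw [sdiff_empty] at hY
    obtain ⟨e, he⟩ := card_eq_one.mp hY
    apply hI e
    intro hr
    have hstay : ∀ x y, (under src dst {e' | e' ≠ e}).Reachable x y → (x ∈ Y ↔ y ∈ Y) := by
      rintro x y ⟨p⟩
      induction p with
      | nil => exact Iff.rfl
      | cons hadj _ ih =>
        refine Iff.trans ?_ ih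
        obtain ⟨_, e', he', h1⟩ := hadj
        have hn : e' ∉ Pool.Agent.TH676.A.crs src dst Y := by
          rw [he, mem_singleton]; exact he'
        rw [Pool.Agent.TH676.A.mem_crs, not_not] at hn
        rcases h1 with ⟨h2, h3⟩ | ⟨h2, h3⟩
        · rw [h2, h3] at hn; exact hn
        · rw [h2, h3] at hn; exact hn.symm
    have hm : e ∈ Pool.Agent.TH676.A.crs src dst Y := by rw [he]; exact mem_singleton_self _
    rw [Pool.Agent.TH676.A.mem_crs] at hm
    exact hm (hstay _ _ hr)
  have main : (∀ r : V → V → Prop, Equivalence r → Reduced src dst r → Dominated src dst r) →
      SixEvenSubgraphs src dst := by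
    intro h
    have hD : Pool.Agent.T2H83.Dom.Dm src dst := fun r hr hR =>
      h r hr ⟨hR.two, hR.three, hR.four, hR.deg⟩
    obtain ⟨C, h1, h2⟩ := Pool.Agent.TH497.BF.six
      (Pool.Agent.T2H83.Dom.alg_dom Pool.Agent.TH497.BF.algAg Pool.Agent.R890.FF.petBF
        ⟨Pool.Agent.R890.FF.embBF, Pool.Agent.R890.FF.emb_A⟩ src dst
        (Pool.Agent.R890.FF.n1_of_br hcut) hD)
    exact ⟨C, h1, h2⟩
  refine ⟨main, fun ⟨d, hd⟩ => main fun r hr _ => ⟨d, fun x hx => ?_⟩⟩
  obtain ⟨i, h1 | ⟨e, h1⟩⟩ := hd x hx
  · exact ⟨i, Or.inl (h1 ▸ hr.refl _)⟩
  · refine ⟨i, Or.inr ⟨e, ?_⟩⟩
    rcases h1 with ⟨h2, h3⟩ | ⟨h2, h3⟩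
    · exact Or.inl ⟨h2 ▸ hr.refl _, h3 ▸ hr.refl _⟩
    · exact Or.inr ⟨h2 ▸ hr.refl _, h3 ▸ hr.refl _⟩

end Pool.Agent.Results.MP_40718a_co.DominationThree
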