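import Pool.Agent.R545.PC.Main
import Pool.Agent.R890.FF.BF
import Pool.Agent.TH497.BF.Six

set_option autoImplicit false

/-!
# Six even subgraphs with every edge in exactly four of them: independence number at most six

Let `G` be a finite graph without a cut edge, loops and parallel edges allowed, such that any seven
different vertices, each of which is an end of an edge, include two which are joined by an edge or
by two different paths with two edges; for example, let the independence number of `G` be at most
six.  Then `G` has six even subgraphs such that every edge is in exactly four of them.  The order,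
the degrees, the width and the connectivity of `G` are arbitrary.

Proof.  The class is closed under the identification of vertices.  A quotient `H` of `G` which has
no nowhere-zero flow over the group of order four and no Petersen quotient, with as few edges as
possible, has no circuit with at most four edges, its vertices which are not isolated have degree at
least three, and at least 18 of them are odd; such a graph has seven independent vertices
(`R545/IN/Ramsey.lean`), which are images of seven vertices of `G` no two of which are close.  So
`G` and all its quotients have a nowhere-zero flow over the group of order four or a Petersen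
quotient, and in the second case one glues at the ten 3-cuts of the quotient (`R890/FF/Alg.lean`,
`R545/PC/Main.lean`) with the values of weight four in the even vectors with six coordinates
(`R890/FF/BF.lean`).
-/

namespace Pool.Agent.Results.MP_40718a_co.IndependenceNumberSix

open Finset

/-- the simple graph in which two distinct vertices are adjacent if an edge in `F` joins them -/
def under {V E : Type} (src dst : E → V) (F : Set E) : SimpleGraph V where
  Adj x y := x ≠ y ∧ ∃ e ∈ F, (src e = x ∧ dst e = y) ∨ (src e = y ∧ dst e = x)
  symm := ⟨fun _ _ h => ⟨h.1.symm, h.2.imp fun _ he => ⟨he.1, he.2.symm⟩⟩⟩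
  loopless := ⟨fun _ h => h.1 rfl⟩

/-- the edge `e` is a cut edge: its ends are not connected by the other edges -/
def IsCutEdge {V E : Type} (src dst : E → V) (e : E) : Prop :=
  ¬ (under src dst {e' | e' ≠ e}).Reachable (src e) (dst e)

/-- the degree of `v` in the set of edges `F`, where a loop counts twice -/
def deg {V E : Type} [DecidableEq V] (src dst : E → V) (F : Finset E) (v : V) : ℕ :=
  ∑ e ∈ F, ((if src e = v then 1 else 0) + (if dst e = v then 1 else 0))

/-- the edge `e` joins the vertices `x` and `y` -/
def Joins {V E : Type} (src dst : E → V) (x y : V) (e : E) : Prop :=
  (src e = x ∧ dst e = y) ∨ (src e = y ∧ dst e = x)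

/-- The vertices `x` and `y` are joined by an edge, or by two different paths with two edges
(`e, f` through `a` and `e', f'` through `b`; for example, they have two common neighbours). -/
def Close {V E : Type} (src dst : E → V) (x y : V) : Prop :=
  (∃ e, Joins src dst x y e) ∨
    ∃ (e f e' f' : E) (a b : V), (e ≠ e' ∨ f ≠ f') ∧ Joins src dst x a e ∧ Joins src dst a y f ∧
      Joins src dst x b e' ∧ Joins src dst b y f'

/-- **Theorem.** A graph without a cut edge in which any seven different vertices, each an end of an
edge, include two which are joined by an edge or by two different paths with two edges has six even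
subgraphs such that every edge is in exactly four of them. -/
theorem result (V E : Type) [Fintype V] [DecidableEq V] [Fintype E] [DecidableEq E]
    (src dst : E → V) (hI : ∀ e, ¬ IsCutEdge src dst e)
    (h7 : ∀ x : Fin 7 → V, Function.Injective x → (∀ i, ∃ e, src e = x i ∨ dst e = x i) →
      ∃ i j, i ≠ j ∧ Close src dst (x i) (x j)) :
    ∃ C : Fin 6 → Finset E, (∀ i v, Even (deg src dst (C i) v)) ∧
      ∀ e, (univ.filter fun i => e ∈ C i).card = 4 := by
  classical
  -- no cut with one edge
  have hcut : Pool.Agent.TH676.A.Br src dst ∅ ∅ := by
    intro Y _ hY
    rw [sdiff_empty] at hY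
    obtain ⟨e, he⟩ := card_eq_one.mp hY
    apply hI e
    intro hr
    have hstay : ∀ x y, (under src dst {e' | e' ≠ e}).Reachable x y → (x ∈ Y ↔ y ∈ Y) := by
      rintro x y ⟨p⟩
      induction p with
      | nil => exact Iff.rfl
      | cons hadj _ ih =>
        refine Iff.trans ?_ ih
        obtain ⟨_, e', he', h1⟩ := hadj
        have hn : e' ∉ Pool.Agent.TH676.A.crs src dst Y := by
          rw [he, mem_singleton]; exact he'
        rw [Pool.Agent.TH676.A.mem_crs, not_not] at hn
        rcases h1 with ⟨h2, h3⟩ | ⟨h2, h3⟩
        · rw [h2, h3] at hn; exact hn
        · rw [h2, h3] at hn; exact hn.symm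
    have hm : e ∈ Pool.Agent.TH676.A.crs src dst Y := by rw [he]; exact mem_singleton_self _
    rw [Pool.Agent.TH676.A.mem_crs] at hm
    exact hm (hstay _ _ hr)
  have h7' : Pool.Agent.R545.PC.Cl src dst := h7
  obtain ⟨C, h1, h2⟩ := Pool.Agent.TH497.BF.six
    (Pool.Agent.R545.PC.alg_seven Pool.Agent.TH497.BF.algAg Pool.Agent.R890.FF.petBF
      ⟨Pool.Agent.R890.FF.embBF, Pool.Agent.R890.FF.emb_A⟩ src dst
      (Pool.Agent.R890.FF.n1_of_br hcut) h7')
  exact ⟨C, h1, h2⟩

end Pool.Agent.Results.MP_40718a_co.IndependenceNumberSix
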