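import Pool.Agent.T2H83.Fac.Class
import Pool.Agent.TH497.BF.Six

set_option autoImplicit false

/-!
# Six even subgraphs with every edge in exactly four of them: large degrees, few far vertices

Let `G` be a finite graph without a cut edge, loops and parallel edges allowed.  The ball of a
vertex `v` consists of `v` and, if `v` has at least seven neighbours, of the neighbours of `v`.  If
among any eighteen vertices there are two with intersecting balls then `G` has six even subgraphs
such that every edge is in exactly four of them.  For example, this is so if every vertex has at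
least seven neighbours and no eighteen vertices have pairwise distances at least three (if the
domination number of `G` is at most 17, or if every vertex has at least `max (7, n / 18)` neighbours,
where `n` is the number of vertices).

Proof.  Let `H` arise from `G` by identification of vertices and have no nowhere-zero flow over the
group of order four and no Petersen quotient, with as few edges as possible.  It has no circuit with
at most four edges, its vertices which are not isolated have degree at least three, and at least 18
of them are odd (starting theorems, `R890/FF`).  If `k ≥ 2` vertices of `H` spanned more than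
`2 k - 3` edges then some vertices would be joined by two disjoint trees, and the flow of the graph
in which they are identified could be lifted (`T2H83/Fac/Sparse.lean`).  Hence at least 18 vertices
of `H` have at most six edges (`Count.lean`), and each of them is the image of a vertex of `G`
together with its ball (`Class.lean`).  So all quotients of `G` have a nowhere-zero flow over the
group of order four or a Petersen quotient, and in the second case one glues at the ten 3-cuts of the
quotient (`R890/FF/Alg.lean`).
-/

namespace Pool.Agent.Results.MP_40718a_co.ScatteredVertices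

open Finset

/-- the simple graph in which two distinct vertices are adjacent if an edge in `F` joins them -/
def under {V E : Type} (src dst : E → V) (F : Set E) : SimpleGraph V where
  Adj x y := x ≠ y ∧ ∃ e ∈ F, (src e = x ∧ dst e = y) ∨ (src e = y ∧ dst e = x)
  symm := ⟨fun _ _ h => ⟨h.1.symm, h.2.imp fun _ he => ⟨he.1, he.2.symm⟩⟩⟩
  loopless := ⟨fun _ h => h.1 rfl⟩

/-- the edge `e` is a cut edge: its ends are not connected by the other edges -/
def IsCutEdge {V E : Type} (src dst : E → V) (e : E) : Prop :=
  ¬ (under src dst {e' | e' ≠ e}).Reachable (src e) (dst e)

/-- the degree of `v` in the set of edges `F`, where a loop counts twice -/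
def deg {V E : Type} [DecidableEq V] (src dst : E → V) (F : Finset E) (v : V) : ℕ :=
  ∑ e ∈ F, ((if src e = v then 1 else 0) + (if dst e = v then 1 else 0))

/-- the neighbours of `v`: the vertices different from `v` which are joined to `v` by an edge -/
def nbrs {V E : Type} (src dst : E → V) (v : V) : Set V :=
  {w | w ≠ v ∧ ∃ e, (src e = v ∧ dst e = w) ∨ (src e = w ∧ dst e = v)}

/-- the ball of `v`: the vertex `v` and, if `v` has at least seven neighbours, its neighbours -/
def ball {V E : Type} (src dst : E → V) (v : V) : Set V :=
  {w | w = v ∨ (7 ≤ (nbrs src dst v).ncard ∧ w ∈ nbrs src dst v)}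

/-- six even subgraphs such that every edge is in exactly four of them -/
def SixEvenSubgraphs {V E : Type} [DecidableEq V] [Fintype E] [DecidableEq E]
    (src dst : E → V) : Prop :=
  ∃ C : Fin 6 → Finset E, (∀ i v, Even (deg src dst (C i) v)) ∧
    ∀ e, (univ.filter fun i => e ∈ C i).card = 4

/-- **Theorem.** Let `G` be a finite graph without a cut edge, loops and parallel edges allowed.
(1) If any eighteen different vertices, each with a neighbour, include two whose balls intersect,
then `G` has six even subgraphs such that every edge is in exactly four of them.
(2) In particular this holds if each vertex `v` has at least seven neighbours and `G` has fewer than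
`18 (d + 1)` vertices, where `d` is the number of neighbours of `v`. -/
theorem result (V E : Type) [Fintype V] [DecidableEq V] [Fintype E] [DecidableEq E]
    (src dst : E → V) (hI : ∀ e, ¬ IsCutEdge src dst e) :
    ((∀ x : Fin 18 → V, Function.Injective x → (∀ i, (nbrs src dst (x i)).Nonempty) →
      ∃ i j, i ≠ j ∧ (ball src dst (x i) ∩ ball src dst (x j)).Nonempty) →
      SixEvenSubgraphs src dst) ∧
    ((∀ v, 7 ≤ (nbrs src dst v).ncard ∧
      Fintype.card V < 18 * ((nbrs src dst v).ncard + 1)) → SixEvenSubgraphs src dst) := by
  classical
  -- no cut with one edge
  have hcut : Pool.Agent.TH676.A.Br src dst ∅ ∅ := by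
    intro Y _ hY
    rw [sdiff_empty] at hY
    obtain ⟨e, he⟩ := card_eq_one.mp hY
    apply hI e
    intro hr
    have hstay : ∀ x y, (under src dst {e' | e' ≠ e}).Reachable x y → (x ∈ Y ↔ y ∈ Y) := by
      rintro x y ⟨p⟩
      induction p with
      | nil => exact Iff.rfl
      | cons hadj _ ih =>
        refine Iff.trans ?_ ih
        obtain ⟨_, e', he', h1⟩ := hadj
        have hn : e' ∉ Pool.Agent.TH676.A.crs src dst Y := by
          rw [he, mem_singleton]; exact he'
        rw [Pool.Agent.TH676.A.mem_crs, not_not] at hn
        rcases h1 with ⟨h2, h3⟩ | ⟨h2, h3⟩
        · rw [h2, h3] at hn; exact hn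
        · rw [h2, h3] at hn; exact hn.symm
    have hm : e ∈ Pool.Agent.TH676.A.crs src dst Y := by rw [he]; exact mem_singleton_self _
    rw [Pool.Agent.TH676.A.mem_crs] at hm
    exact hm (hstay _ _ hr)
  have main : Pool.Agent.T2H83.Fac.Meet src dst → SixEvenSubgraphs src dst := by
    intro hM
    obtain ⟨C, h1, h2⟩ := Pool.Agent.TH497.BF.six
      (Pool.Agent.T2H83.Fac.flow Pool.Agent.TH497.BF.algAg Pool.Agent.R890.FF.petBF
        ⟨Pool.Agent.R890.FF.embBF, Pool.Agent.R890.FF.emb_A⟩ src dst
        (Pool.Agent.R890.FF.n1_of_br hcut) hM)
    exact ⟨C, h1, h2⟩
  refine ⟨main, fun h => main ?_⟩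
  intro x hx _
  by_contra hcon
  push Not at hcon
  -- the balls are disjoint
  have hball : ∀ v, (ball src dst v).ncard = (nbrs src dst v).ncard + 1 := by
    intro v
    have h1 : ball src dst v = insert v (nbrs src dst v) := by
      ext w
      unfold ball
      rw [Set.mem_insert_iff]
      exact ⟨fun h2 => h2.imp id fun h3 => h3.2, fun h2 => h2.imp id fun h3 => ⟨(h v).1, h3⟩⟩
    rw [h1, Set.ncard_insert_of_notMem (fun h2 => h2.1 rfl) (Set.toFinite _)]
  have hdis : ∀ i j, i ≠ j → Disjoint ((ball src dst (x i)).toFinset)
      ((ball src dst (x j)).toFinset) := by
    intro i j hij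
    rw [Set.disjoint_toFinset, Set.disjoint_iff_inter_eq_empty]
    exact hcon i j hij
  obtain ⟨v0, -, hv0⟩ := Finset.exists_min_image (univ : Finset V)
    (fun v => (nbrs src dst v).ncard) ⟨x 0, mem_univ _⟩
  have h1 : ((univ : Finset (Fin 18)).biUnion fun i => (ball src dst (x i)).toFinset).card =
      ∑ i : Fin 18, ((ball src dst (x i)).toFinset).card :=
    card_biUnion fun i _ j _ hij => hdis i j hij
  have h2 : ∑ _i : Fin 18, ((nbrs src dst v0).ncard + 1) ≤
      ∑ i : Fin 18, ((ball src dst (x i)).toFinset).card := by
    refine Finset.sum_le_sum fun i _ => ?_
    rw [← Set.ncard_eq_toFinset_card', hball]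
    have := hv0 (x i) (mem_univ _)
    omega
  have h3 := card_le_univ ((univ : Finset (Fin 18)).biUnion fun i => (ball src dst (x i)).toFinset)
  rw [Finset.sum_const, card_univ, Fintype.card_fin, smul_eq_mul] at h2
  have h4 := (h v0).2
  omega

end Pool.Agent.Results.MP_40718a_co.ScatteredVertices
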