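import Pool.Agent.R890.FF.BF
import Pool.Agent.TH497.BF.Six

set_option autoImplicit false

/-!
# Six even subgraphs with every edge in exactly four of them: vertex cover number at most nine

Let `G` be a finite graph without a cut edge, loops and parallel edges allowed, and let `X` be a set
of at most nine vertices such that every edge which is not a loop has an end in `X`.  Then `G` has
six even subgraphs such that every edge is in exactly four of them.

Proof.  The class is closed under the identification of vertices.  A quotient `H` of `G` which has
no nowhere-zero flow over the group of order four and no Petersen quotient, with as few edges as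
possible, has no circuit with at most four edges, its vertices which are not isolated have degree at
least three, and at least 18 of them are odd (starting theorem on at most 16 odd vertices); nine
vertices do not cover the edges of such a graph (`R890/FF/Cov.lean`).  So `G` and all its quotients
have a nowhere-zero flow over the group of order four or a Petersen quotient, and in the second case
one glues at the ten 3-cuts of the quotient (`R890/FF/Alg.lean`) with the values of weight four in
the even vectors with six coordinates (`R890/FF/BF.lean`).
-/

namespace Pool.Agent.Results.MP_40718a_co.VertexCoverNine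

open Finset

/-- the simple graph in which two distinct vertices are adjacent if an edge in `F` joins them -/
def under {V E : Type} (src dst : E → V) (F : Set E) : SimpleGraph V where
  Adj x y := x ≠ y ∧ ∃ e ∈ F, (src e = x ∧ dst e = y) ∨ (src e = y ∧ dst e = x)
  symm := ⟨fun _ _ h => ⟨h.1.symm, h.2.imp fun _ he => ⟨he.1, he.2.symm⟩⟩⟩
  loopless := ⟨fun _ h => h.1 rfl⟩

/-- the edge `e` is a cut edge: its ends are not connected by the other edges -/
def IsCutEdge {V E : Type} (src dst : E → V) (e : E) : Prop :=
  ¬ (under src dst {e' | e' ≠ e}).Reachable (src e) (dst e)

/-- the degree of `v` in the set of edges `F`, where a loop counts twice -/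
def deg {V E : Type} [DecidableEq V] (src dst : E → V) (F : Finset E) (v : V) : ℕ :=
  ∑ e ∈ F, ((if src e = v then 1 else 0) + (if dst e = v then 1 else 0))

/-- **Theorem.** A graph without a cut edge in which at most nine vertices cover all edges which are
not loops has six even subgraphs such that every edge is in exactly four of them. -/
theorem result (V E : Type) [Fintype V] [DecidableEq V] [Fintype E] [DecidableEq E]
    (src dst : E → V) (hI : ∀ e, ¬ IsCutEdge src dst e)
    (X : Finset V) (hX : ∀ e, src e ≠ dst e → src e ∈ X ∨ dst e ∈ X) (h9 : X.card ≤ 9) :
    ∃ C : Fin 6 → Finset E, (∀ i v, Even (deg src dst (C i) v)) ∧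
      ∀ e, (univ.filter fun i => e ∈ C i).card = 4 := by
  classical
  -- no cut with one edge
  have hcut : Pool.Agent.TH676.A.Br src dst ∅ ∅ := by
    intro Y _ hY
    rw [sdiff_empty] at hY
    obtain ⟨e, he⟩ := card_eq_one.mp hY
    apply hI e
    intro hr
    have hstay : ∀ x y, (under src dst {e' | e' ≠ e}).Reachable x y → (x ∈ Y ↔ y ∈ Y) := by
      rintro x y ⟨p⟩
      induction p with
      | nil => exact Iff.rfl
      | cons hadj _ ih =>
        refine Iff.trans ?_ ih
        obtain ⟨_, e', he', h1⟩ := hadj
        have hn : e' ∉ Pool.Agent.TH676.A.crs src dst Y := by
          rw [he, mem_singleton]; exact he'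
        rw [Pool.Agent.TH676.A.mem_crs, not_not] at hn
        rcases h1 with ⟨h2, h3⟩ | ⟨h2, h3⟩
        · rw [h2, h3] at hn; exact hn
        · rw [h2, h3] at hn; exact hn.symm
    have hm : e ∈ Pool.Agent.TH676.A.crs src dst Y := by rw [he]; exact mem_singleton_self _
    rw [Pool.Agent.TH676.A.mem_crs] at hm
    exact hm (hstay _ _ hr)
  obtain ⟨C, h1, h2⟩ := Pool.Agent.TH497.BF.six (Pool.Agent.R890.FF.bf_cover src dst X hcut hX h9)
  exact ⟨C, h1, h2⟩

end Pool.Agent.Results.MP_40718a_co.VertexCoverNine
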